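import Pool.Agent.Helper289.Newton.N15

/-!
# A real-analytic time-periodic potential outside the family `W(nu+mt)+g(t)` whose Newton equation
is totally integrable at infinity
-/

open Set
open scoped ContDiff

namespace Pool.Agent.Results.MP_114753_an.IntegrableAtInfinity

/-- `(u, p)` solves Hamilton's equations `u' = p`, `p' = -∂V/∂u (u, t)` on the interval `(a, b)`. -/
def IsSolution (V : ℝ → ℝ → ℝ) (a b : ℝ) (u p : ℝ → ℝ) : Prop :=
  ∀ t ∈ Ioo a b, HasDerivAt u (p t) t ∧ HasDerivAt p (-deriv (fun x => V x t) (u t)) t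

/-- `f` is continuous, `1`-periodic in both variables, and its graph `{(u, f(u, t), t)}` is
invariant: every solution that meets it, on whatever open interval of time, stays on it. -/
def IsInvariantGraph (V f : ℝ → ℝ → ℝ) : Prop :=
  Continuous (fun z : ℝ × ℝ => f z.1 z.2) ∧
  (∀ u t, f (u + 1) t = f u t) ∧ (∀ u t, f u (t + 1) = f u t) ∧
  ∀ (a b : ℝ) (u p : ℝ → ℝ), IsSolution V a b u p →
    ∀ t₀ ∈ Ioo a b, p t₀ = f (u t₀) t₀ → ∀ t ∈ Ioo a b, p t = f (u t) t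

/-- There is a family of invariant graphs `F l`, with `l` real and `c₀ < |l|`, that depends
continuously on `(l, u, t)`, is strictly increasing in `l` (so the graphs are disjoint), and covers
`{|p| > c}` for some `c > 0`. -/
def TotallyIntegrableAtInfinity (V : ℝ → ℝ → ℝ) : Prop :=
  ∃ c₀ > 0, ∃ F : ℝ → ℝ → ℝ → ℝ,
    (∀ l, c₀ < |l| → IsInvariantGraph V (F l)) ∧
    ContinuousOn (fun q : ℝ × ℝ × ℝ => F q.1 q.2.1 q.2.2) {q | c₀ < |q.1|} ∧
    (∀ l l', c₀ < |l| → c₀ < |l'| → l < l' → ∀ u t, F l u t < F l' u t) ∧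
    ∃ c > 0, ∀ u t p : ℝ, c < |p| → ∃ l, c₀ < |l| ∧ F l u t = p

/-- `V(u, t) = W(nu + mt) + g(t)` for an integer `n`, a real `m` and some functions `W`, `g`
(no regularity is asked of `W` and `g`). -/
def InFamily (V : ℝ → ℝ → ℝ) : Prop :=
  ∃ (n : ℤ) (m : ℝ) (W g : ℝ → ℝ), ∀ u t, V u t = W (n * u + m * t) + g t

theorem result : ∃ V : ℝ → ℝ → ℝ, ContDiff ℝ ω (fun z : ℝ × ℝ => V z.1 z.2) ∧
    (∀ u t, V (u + 1) t = V u t) ∧ (∀ u t, V u (t + 1) = V u t) ∧
    ¬ InFamily V ∧ TotallyIntegrableAtInfinity V := by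
  obtain ⟨V, h1, h2, h3, h4, c₀, hc₀, F, hF, hcont, hmono, c, hc, hcov⟩ := NewtonInf.main_raw
  refine ⟨V, h1, h2, h3, ?_, c₀, hc₀, F, ?_, hcont, hmono, c, hc, hcov⟩
  · rintro ⟨n, m, W, g, h⟩
    exact h4 n m W g h
  · intro l hl
    obtain ⟨f1, f2, f3, f4⟩ := hF l hl
    exact ⟨f1.continuous, f2, f3, fun a b u p hs t₀ ht₀ h0 t ht =>
      f4 a b u p (fun s hs' => (hs s hs').1) (fun s hs' => (hs s hs').2) t₀ ht₀ h0 t ht⟩

end Pool.Agent.Results.MP_114753_an.IntegrableAtInfinity
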